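import Pool.Agent.Lib_helper79.QE.Nrm

open Filter Topology

namespace QE

lemma k1_nrm_sq {x : ℕ → ℂ} (q : ℕ) :
    nrm q x ^ 2 = ∑' n : ℕ, ‖x n‖ ^ 2 * ((n : ℝ) + 1) ^ (2 * q) := by
  unfold nrm
  rw [Real.sq_sqrt]
  exact tsum_nonneg fun n => by positivity

lemma k1_mono {x : ℕ → ℂ} (hx : InS x) (q : ℕ) : nrm q x ≤ nrm (q + 1) x := by
  unfold nrm
  apply Real.sqrt_le_sqrt
  refine (hx q).tsum_le_tsum (fun n => ?_) (hx (q + 1))
  refine mul_le_mul_of_nonneg_left ?_ (by positivity)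
  exact pow_le_pow_right₀ (by linarith [(Nat.cast_nonneg n : (0 : ℝ) ≤ n)]) (by omega)

lemma k1_pos {x : ℕ → ℂ} (hx : InS x) (h : nrm 0 x = 0) : x = 0 := by
  have h1 : ∑' n : ℕ, ‖x n‖ ^ 2 * ((n : ℝ) + 1) ^ (2 * 0) = 0 := by
    rw [← k1_nrm_sq, h]; norm_num
  have h2 := (hx 0).hasSum
  rw [h1] at h2
  have h3 := (hasSum_zero_iff_of_nonneg (fun n => by positivity)).mp h2
  funext n
  have h4 := congrFun h3 n
  simp only [mul_zero, pow_zero, mul_one, Pi.zero_apply, ne_eq, OfNat.ofNat_ne_zero,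
    not_false_eq_true, pow_eq_zero_iff, norm_eq_zero] at h4
  simpa using h4

lemma k1_lc {x : ℕ → ℂ} (hx : InS x) (q : ℕ) :
    nrm (q + 1) x ^ 2 ≤ nrm q x * nrm (q + 2) x := by
  have hw : ∀ n : ℕ, (0 : ℝ) ≤ (n : ℝ) + 1 := fun n => by positivity
  have h := Real.inner_le_Lp_mul_Lq_tsum_of_nonneg (p := 2) (q := 2)
    (f := fun n : ℕ => ‖x n‖ * ((n : ℝ) + 1) ^ q) (g := fun n : ℕ => ‖x n‖ * ((n : ℝ) + 1) ^ (q + 2))
    (by
      rw [Real.holderConjugate_iff]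
      norm_num)
    (fun n => by positivity) (fun n => by positivity)
    (by
      refine (hx q).congr ?_
      intro n
      rw [Real.rpow_two, mul_pow, ← pow_mul, mul_comm q 2])
    (by
      refine (hx (q + 2)).congr ?_
      intro n
      rw [Real.rpow_two, mul_pow, ← pow_mul, mul_comm (q + 2) 2])
  have h1 := h
  rw [k1_nrm_sq]
  unfold nrm
  rw [Real.sqrt_eq_rpow, Real.sqrt_eq_rpow]
  refine le_trans (le_of_eq ?_) (h1.trans (le_of_eq ?_))
  · apply tsum_congr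
    intro n
    rw [show 2 * (q + 1) = q + (q + 2) by ring, pow_add]
    ring
  · congr 2
    · apply tsum_congr
      intro n
      rw [Real.rpow_two, mul_pow, ← pow_mul, mul_comm q 2]
    · apply tsum_congr
      intro n
      rw [Real.rpow_two, mul_pow, ← pow_mul, mul_comm (q + 2) 2]

lemma k1_coord {x : ℕ → ℂ} (hx : InS x) (q n : ℕ) :
    ‖x n‖ ≤ nrm q x := by
  have h1 : ‖x n‖ ^ 2 ≤ nrm q x ^ 2 := by
    rw [k1_nrm_sq]
    have h2 := (hx q).le_tsum n (fun m _ => by positivity)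
    refine le_trans ?_ h2
    have h3 : (1 : ℝ) ≤ ((n : ℝ) + 1) ^ (2 * q) :=
      one_le_pow₀ (by linarith [(Nat.cast_nonneg n : (0 : ℝ) ≤ n)])
    nlinarith [sq_nonneg ‖x n‖]
  exact abs_le_of_sq_le_sq' h1 (nrm_nonneg q x) |>.2

lemma k1_emb_sum (q : ℕ) (u : ℕ → ℕ → ℂ) (k : ℕ) :
    emb q (∑ i ∈ Finset.range k, u i) = ∑ i ∈ Finset.range k, emb q (u i) := by
  funext n
  simp only [emb, Finset.sum_apply, Finset.sum_mul]

lemma k1_inS_of_memlp {x : ℕ → ℂ} (h : ∀ q, Memℓp (emb q x) 2) : InS x := by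
  intro q
  have h2 := (h q).summable (by norm_num)
  refine h2.congr ?_
  intro n
  rw [← norm_emb_sq]
  norm_num

lemma k1_comp {u : ℕ → ℕ → ℂ} (hu : ∀ i, InS (u i)) (hs : ∀ q, Summable fun i => nrm q (u i)) :
    ∃ y, InS y ∧ Conv (fun k => ∑ i ∈ Finset.range k, u i) y := by
  have hsum : ∀ q, Summable fun i => embL (hu i) q := by
    intro q
    apply Summable.of_norm
    refine (hs q).congr ?_
    intro i
    rw [nrm_eq_norm (hu i)]
  have hcoord : ∀ q n, HasSum (fun i => emb q (u i) n) ((∑' i, embL (hu i) q : lp (fun _ : ℕ => ℂ) 2) n) := by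
    intro q n
    have h1 := (hsum q).hasSum
    have hcont : Continuous fun f : lp (fun _ : ℕ => ℂ) 2 => (f : ℕ → ℂ) n :=
      (lp.evalCLM ℂ (fun _ : ℕ => ℂ) 2 n).continuous
    have h2 := h1.map (lp.evalCLM ℂ (fun _ : ℕ => ℂ) 2 n) (lp.evalCLM ℂ (fun _ : ℕ => ℂ) 2 n).continuous
    exact h2
  let y : ℕ → ℂ := fun n => ∑' i, u i n
  have hy : ∀ q, emb q y = ((∑' i, embL (hu i) q : lp (fun _ : ℕ => ℂ) 2) : ℕ → ℂ) := by
    intro q
    funext n
    have h1 := (hcoord q n).tsum_eq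
    rw [← h1]
    simp only [emb, y]
    rw [tsum_mul_right]
  have hyS : InS y := k1_inS_of_memlp fun q => by rw [hy q]; exact (∑' i, embL (hu i) q).2
  have hpS : ∀ k, InS (∑ i ∈ Finset.range k, u i) := by
    intro k
    induction k with
    | zero => simpa using InS.zero
    | succ k ih => rw [Finset.sum_range_succ]; exact ih.add (hu k)
  refine ⟨y, hyS, ?_⟩
  intro q
  have hdS : ∀ k, InS ((∑ i ∈ Finset.range k, u i) - y) := by
    intro k
    have := (hpS k).add (hyS.smul (-1))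
    rwa [neg_one_smul, ← sub_eq_add_neg] at this
  have heq : ∀ k, nrm q ((∑ i ∈ Finset.range k, u i) - y) =
      ‖(∑ i ∈ Finset.range k, embL (hu i) q) - ∑' i, embL (hu i) q‖ := by
    intro k
    rw [nrm_eq_norm (hdS k)]
    congr 1
    apply Subtype.ext
    show emb q _ = _
    rw [lp.coeFn_sub, ← hy q]
    have h1 : ((∑ i ∈ Finset.range k, embL (hu i) q : lp (fun _ : ℕ => ℂ) 2) : ℕ → ℂ) =
        ∑ i ∈ Finset.range k, emb q (u i) := by
      rw [lp.coeFn_sum]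
      rfl
    rw [h1, ← k1_emb_sum]
    funext n
    simp [emb, sub_mul]
  simp only [heq]
  have h2 := (hsum q).hasSum.tendsto_sum_nat
  have h3 := (h2.sub_const (∑' i, embL (hu i) q)).norm
  simpa using h3

lemma k1_sum_coe {Y : Submodule ℂ (ℕ → ℂ)} (u : ℕ → Y) (n : ℕ) :
    ((∑ i ∈ Finset.range n, u i : Y) : ℕ → ℂ) = ∑ i ∈ Finset.range n, (u i : ℕ → ℂ) := by
  rw [AddSubmonoidClass.coe_finsetSum]

theorem k1_gr_proof {Y : Submodule ℂ (ℕ → ℂ)} (hY : ClosedSub Y) : Gr (nrmSem hY) where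
  mono q x := k1_mono (hY.inS _ x.2) q
  pos x h := Subtype.ext (k1_pos (hY.inS _ x.2) h)
  lc q x := k1_lc (hY.inS _ x.2) q
  comp u hu := by
    obtain ⟨y, hyS, hy⟩ := k1_comp (u := fun i => (u i : ℕ → ℂ)) (fun i => hY.inS _ (u i).2) hu
    have hyY : y ∈ Y := by
      refine hY.closed _ y (fun k => ?_) hyS hy
      exact Y.sum_mem fun i _ => (u i).2
    refine ⟨⟨y, hyY⟩, ?_⟩
    intro q
    refine (hy q).congr ?_
    intro n
    rw [nrmSem_apply]
    rw [Submodule.coe_sub, k1_sum_coe]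
    have h1 : ∀ z : ℕ → ℂ, nrm q (-z) = nrm q z := by
      intro z
      rw [← neg_one_smul ℂ z, nrm_smul, norm_neg, norm_one, one_mul]
    rw [← h1]
    congr 1
    simp

theorem k1_nuc_proof {Y : Submodule ℂ (ℕ → ℂ)} (hY : ClosedSub Y) : Nuc (nrmSem hY) := by
  intro k
  let L : Y →ₗ[ℂ] (Fin k → ℂ) :=
    { toFun := fun x i => (x : ℕ → ℂ) i
      map_add' := fun x y => rfl
      map_smul' := fun a x => rfl }
  refine ⟨L, ?_⟩
  intro x hx q v
  rw [nrmSem_apply, nrmSem_apply]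
  have hx0 : ∀ n < k, (x : ℕ → ℂ) n = 0 := fun n hn => congrFun hx ⟨n, hn⟩
  have hS := hY.inS _ x.2
  have hk : (0 : ℝ) ≤ ((k : ℝ) + 1) ^ v := by positivity
  unfold nrm
  rw [← Real.sqrt_sq hk, ← Real.sqrt_mul (by positivity)]
  apply Real.sqrt_le_sqrt
  rw [← tsum_mul_left]
  refine ((hS q).mul_left _).tsum_le_tsum (fun n => ?_) (hS (q + v))
  by_cases hn : n < k
  · rw [hx0 n hn]; simp
  · push Not at hn
    have h1 : (((k : ℝ) + 1) ^ v) ^ 2 ≤ ((n : ℝ) + 1) ^ (2 * v) := by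
      rw [← pow_mul, mul_comm v 2]
      refine pow_le_pow_left₀ (by positivity) ?_ _
      have : (k : ℝ) ≤ n := by exact_mod_cast hn
      linarith
    have h2 : ((n : ℝ) + 1) ^ (2 * (q + v)) = ((n : ℝ) + 1) ^ (2 * v) * ((n : ℝ) + 1) ^ (2 * q) := by
      rw [← pow_add]
      congr 1
      ring
    rw [h2]
    have h3 : 0 ≤ ‖(x : ℕ → ℂ) n‖ ^ 2 * ((n : ℝ) + 1) ^ (2 * q) := by positivity
    calc (((k : ℝ) + 1) ^ v) ^ 2 * (‖(x : ℕ → ℂ) n‖ ^ 2 * ((n : ℝ) + 1) ^ (2 * q))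
        ≤ ((n : ℝ) + 1) ^ (2 * v) * (‖(x : ℕ → ℂ) n‖ ^ 2 * ((n : ℝ) + 1) ^ (2 * q)) :=
          mul_le_mul_of_nonneg_right h1 h3
      _ = _ := by ring

end QE
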