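import Pool.Agent.Lib_helper79.QE.Abs

open Filter Topology

namespace QE

variable {X : Type*} [AddCommGroup X] [Module ℂ X]

lemma k3_mono {N : ℕ → Seminorm ℂ X} (hN : Gr N) {p q : ℕ} (h : p ≤ q) (x : X) :
    N p x ≤ N q x := by
  induction q, h using Nat.le_induction with
  | base => exact le_rfl
  | succ n _ ih => exact ih.trans (hN.mono n x)

lemma k3_pick {N : ℕ → Seminorm ℂ X} (hN : Gr N) (hL : Nuc N) {b : ℕ → X} {c : ℕ → X →ₗ[ℂ] ℂ}
    (hdual : ∀ i j, c i (b j) = if i = j then 1 else 0)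
    {q : ℕ} {C : ℝ} (hq : ∀ i x, ‖c i x‖ * N 0 (b i) ≤ C * N q x)
    (S : Finset ℕ) (hS : S.Nonempty) :
    ∃ i ∈ S, N 0 (b i) / N (q + 3) (b i) ≤ C * (1 / (S.card : ℝ) ^ 2) := by
  have hb : ∀ i, b i ≠ 0 := by
    intro i h
    have := hdual i i
    rw [h, map_zero] at this
    simp at this
  have hb0 : ∀ i, 0 < N 0 (b i) := by
    intro i
    rcases (apply_nonneg (N 0) (b i)).lt_or_eq with h | h
    · exact h
    · exact absurd (hN.pos _ h.symm) (hb i)
  have hbv : ∀ i, 0 < N (q + 3) (b i) := fun i => (hb0 i).trans_le (k3_mono hN (Nat.zero_le _) _)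
  obtain ⟨k, hk⟩ : ∃ k, S.card = k + 1 := ⟨S.card - 1, by
    have := Finset.card_pos.mpr hS
    omega⟩
  obtain ⟨L, hLx⟩ := hL k
  -- the map `a ↦ L (∑ a_j b_j)`
  let Φ : (S → ℂ) →ₗ[ℂ] X := Fintype.linearCombination ℂ (fun j : S => b j)
  have hker : LinearMap.ker (L ∘ₗ Φ) ≠ ⊥ := by
    apply LinearMap.ker_ne_bot_of_finrank_lt
    simp only [Module.finrank_fintype_fun_eq_card, Fintype.card_coe, Fintype.card_fin]
    omega
  obtain ⟨a, ha, ha0⟩ := (Submodule.ne_bot_iff _).mp hker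
  have hΦ : Φ a = ∑ j : S, a j • b j := Fintype.linearCombination_apply ℂ _ a
  have hLa : L (Φ a) = 0 := by simpa using ha
  obtain ⟨j1, hj1⟩ : ∃ j, a j ≠ 0 := by
    by_contra hcon
    push Not at hcon
    exact ha0 (funext hcon)
  obtain ⟨j0, _, hj0⟩ := Finset.exists_max_image (Finset.univ : Finset S)
    (fun j => ‖a j‖ * N (q + 3) (b j)) ⟨j1, Finset.mem_univ _⟩
  have hM : 0 < ‖a j0‖ * N (q + 3) (b j0) :=
    lt_of_lt_of_le (mul_pos (norm_pos_iff.mpr hj1) (hbv j1)) (hj0 j1 (Finset.mem_univ _))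
  have haj0 : 0 < ‖a j0‖ := by
    by_contra hcon
    have h0 : ‖a j0‖ = 0 := le_antisymm (not_lt.mp hcon) (norm_nonneg _)
    rw [h0, zero_mul] at hM
    exact lt_irrefl _ hM
  have hc : c j0 (Φ a) = a j0 := by
    rw [hΦ, map_sum]
    rw [Finset.sum_eq_single j0]
    · rw [map_smul, hdual, if_pos rfl, smul_eq_mul, mul_one]
    · intro j _ hj
      rw [map_smul, hdual, if_neg, smul_zero]
      intro h
      exact hj (Subtype.ext h.symm)
    · intro h
      exact absurd (Finset.mem_univ _) h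
  have h1 : ‖a j0‖ * N 0 (b j0) ≤ C * N q (Φ a) := by
    have := hq j0 (Φ a)
    rwa [hc] at this
  have h2 : ((k : ℝ) + 1) ^ 3 * N q (Φ a) ≤ N (q + 3) (Φ a) := hLx _ hLa q 3
  have h3 : N (q + 3) (Φ a) ≤ ((k : ℝ) + 1) * (‖a j0‖ * N (q + 3) (b j0)) := by
    rw [hΦ]
    calc N (q + 3) (∑ j : S, a j • b j) ≤ ∑ j : S, N (q + 3) (a j • b j) :=
          Finset.le_sum_of_subadditive (N (q + 3)) (map_zero (N (q + 3))).le (fun x y => map_add_le_add _ x y) _ _
      _ ≤ ∑ _j : S, (‖a j0‖ * N (q + 3) (b j0)) := by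
          apply Finset.sum_le_sum
          intro j _
          rw [map_smul_eq_mul]
          exact hj0 j (Finset.mem_univ _)
      _ = ((k : ℝ) + 1) * (‖a j0‖ * N (q + 3) (b j0)) := by
          rw [Finset.sum_const, Finset.card_univ, Fintype.card_coe, hk, nsmul_eq_mul]
          push_cast
          ring
  have hC : 0 < C := by
    have h := hq 0 (b 0)
    rw [hdual, if_pos rfl, norm_one, one_mul] at h
    by_contra hcon
    have : C * N q (b 0) ≤ 0 := mul_nonpos_of_nonpos_of_nonneg (not_lt.mp hcon) (apply_nonneg _ _)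
    exact absurd (h.trans this) (not_le.mpr (hb0 0))
  refine ⟨j0, j0.2, ?_⟩
  have hk1 : (0 : ℝ) < (k : ℝ) + 1 := by positivity
  rw [hk, div_le_iff₀ (hbv _)]
  push_cast
  have h4 : ((k : ℝ) + 1) ^ 3 * (‖a j0‖ * N 0 (b j0)) ≤
      C * (((k : ℝ) + 1) * (‖a j0‖ * N (q + 3) (b j0))) := by
    calc ((k : ℝ) + 1) ^ 3 * (‖a j0‖ * N 0 (b j0))
        ≤ ((k : ℝ) + 1) ^ 3 * (C * N q (Φ a)) := mul_le_mul_of_nonneg_left h1 (by positivity)
      _ = C * (((k : ℝ) + 1) ^ 3 * N q (Φ a)) := by ring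
      _ ≤ C * (((k : ℝ) + 1) * (‖a j0‖ * N (q + 3) (b j0))) :=
          mul_le_mul_of_nonneg_left (h2.trans h3) hC.le
  have h5 : ((k : ℝ) + 1) ^ 2 * N 0 (b j0) ≤ C * N (q + 3) (b j0) := by
    have hpos : 0 < ((k : ℝ) + 1) * ‖a j0‖ := mul_pos hk1 haj0
    refine le_of_mul_le_mul_left ?_ hpos
    calc ((k : ℝ) + 1) * ‖a j0‖ * (((k : ℝ) + 1) ^ 2 * N 0 (b j0))
        = ((k : ℝ) + 1) ^ 3 * (‖a j0‖ * N 0 (b j0)) := by ring
      _ ≤ _ := h4
      _ = _ := by ring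
  rw [mul_one_div, div_mul_eq_mul_div, le_div_iff₀ (by positivity)]
  linarith

theorem k3_nuc_proof {N : ℕ → Seminorm ℂ X} (hN : Gr N) (hL : Nuc N) {b : ℕ → X}
    {c : ℕ → X →ₗ[ℂ] ℂ}
    (hdual : ∀ i j, c i (b j) = if i = j then 1 else 0)
    (hbdd : ∀ p, ∃ q, ∃ C : ℝ, ∀ i x, ‖c i x‖ * N p (b i) ≤ C * N q x) :
    ∃ v, Summable fun i => N 0 (b i) / N v (b i) := by
  obtain ⟨q, C, hq⟩ := hbdd 0
  refine ⟨q + 3, ?_⟩
  have hnn : ∀ i, 0 ≤ N 0 (b i) / N (q + 3) (b i) :=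
    fun i => div_nonneg (apply_nonneg _ _) (apply_nonneg _ _)
  have hsum : Summable fun m : ℕ => (1 : ℝ) / ((m : ℝ) + 1) ^ 2 := by
    have h := (summable_nat_add_iff 1).mpr (Real.summable_one_div_nat_pow.mpr (by norm_num : 1 < 2))
    refine h.congr ?_
    intro m
    push_cast
    rfl
  have hC : 0 ≤ C := by
    obtain ⟨i, _, hi⟩ := k3_pick hN hL hdual hq {0} ⟨0, Finset.mem_singleton_self 0⟩
    have := (hnn i).trans hi
    simpa using this
  have key : ∀ n : ℕ, ∀ S : Finset ℕ, S.card = n →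
      ∑ i ∈ S, N 0 (b i) / N (q + 3) (b i) ≤
        C * ∑ m ∈ Finset.range n, (1 : ℝ) / ((m : ℝ) + 1) ^ 2 := by
    intro n
    induction n with
    | zero =>
      intro S hS
      rw [Finset.card_eq_zero.mp hS]
      simp
    | succ n ih =>
      intro S hS
      have hne : S.Nonempty := Finset.card_pos.mp (by omega)
      obtain ⟨i, hiS, hi⟩ := k3_pick hN hL hdual hq S hne
      rw [← Finset.add_sum_erase S _ hiS, Finset.sum_range_succ, mul_add, add_comm]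
      refine add_le_add (ih _ ?_) ?_
      · rw [Finset.card_erase_of_mem hiS, hS]
        omega
      · rw [hS] at hi
        push_cast at hi
        exact hi
  refine summable_of_sum_le hnn (c := C * ∑' m : ℕ, (1 : ℝ) / ((m : ℝ) + 1) ^ 2) ?_
  intro S
  refine (key _ S rfl).trans ?_
  exact mul_le_mul_of_nonneg_left (hsum.sum_le_tsum _ (fun m _ => by positivity)) hC

end QE
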